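import Mathlib
import Pool.Agent.Helper16.WindowC

/-!
# Project MT (MP_edbc81_nt): the mean of log (1/‖e^n‖) in short intervals

THEOREM (module FI).  There are C and X0 such that for all X >= X0 and all H <= X:
(1) if H >= log X there is an m with
    sum_(X < n <= X+H, n != m) log (1/‖e^n‖) <= C H X (log log X)^2 / log X;
(2) if H >= (log X)^2 the same bound holds for the full sum.

Notation of helper16 (files Core, GL, WindowA, WindowB, WindowC; all on main, import is above):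
`B x L j` power series  prod_(i != j) (1/(x_j - x_i + T))^(L_i);
`Lam x L φ` = sum_j coefficient of T^(L_j - 1) in φ(x_j + T) B_j(T)   (divided difference);
`A x L z j` = sum_(a+c = L_j - 1) z^a/a! * coeff_c (B x L j);
`hasSum_form`: sum_k z^k/k! Lam(X^k) = sum_j A_j e^(x_j z);
`general_lemma`, `product_bound`, `dvd_factorial_nodes`, `vdm`, `dvd_vdm`, `abs_vdm_le`, `not_dvd_vdm`,
`exists_prime_window`, `round_exp_ne_zero`, `dst n = |exp n - round (exp n)|`.

Throughout s = log t, u = log s, R = t/s in the docstrings.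
-/

open Finset Pool.Agent.Helper16

namespace Pool.Agent.Helper65.MT

/-- `log (1/‖e^n‖)`. -/
noncomputable def lam (n : ℕ) : ℝ := Real.log (1 / |Real.exp n - round (Real.exp n)|)

/-! ## Part A: the refined bound for one n (Mahler's bound, all n) -/

/-- MODULE GM (about 90 lines).  The divided differences of monomials at nodes in `[0, W]`.
Proof.  Let M = sum L_i, P = prod (X - x_j)^(L_j) (monic of degree M) and u_k = Lam (X^k).
(i) Lam (P * Q) = 0 for every polynomial Q: the Taylor expansion of P*Q at x_j is divisible by T^(L_j), so the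
coefficient of T^(L_j - 1) in (taylor) * B_j vanishes.  (ii) u_k = 0 for k < M - 1 and u_(M-1) = 1 by
`Lam_eq_coeff` (Helper16.Core).  (iii) Let P* = prod (1 - x_j T)^(L_j) = reverse P (power series).  The power series
U = sum_k u_k T^k satisfies P* U = T^(M-1) (M >= 1; if m = 0 everything is 0): the coefficient of T^n in P* U is Lam of
the polynomial sum_(a <= n) coeff_a(P*) X^(n-a); for n >= M this polynomial is X^(n-M) P, so we get 0 by (i); for n < M it has
degree n and leading coefficient coeff_0(P*) = 1, so by `Lam_eq_coeff` we get 1 if n = M-1 and 0 if n < M-1.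
(iv) The inverse of P* is prod (sum_i x_j^i T^i)^(L_j), which is majorised (coefficientwise, 0 <= x_j <= W, tools `Maj.mul`,
`Maj.pow`, `Maj.prod` in Core) by (sum_i W^i T^i)^M, whose coefficient of T^i is choose (i+M-1) (M-1) W^i
(`PowerSeries.mk_one_pow_eq_mk_choose_add` and rescale).  Hence |u_k| <= choose k (M-1) W^(k-(M-1)). -/
def StGM : Prop := ∀ (m : ℕ) (x : Fin m → ℝ) (L : Fin m → ℕ) (W : ℝ) (k : ℕ), Function.Injective x →
  (∀ j, 0 < L j) → 0 ≤ W → (∀ j, 0 ≤ x j ∧ x j ≤ W) →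
  |Lam x L (Polynomial.X ^ k)| ≤ (k.choose (∑ i, L i - 1) : ℝ) * W ^ (k - (∑ i, L i - 1))

/-- MODULE RM (about 40 lines).  The remainder.  Proof: by `hasSum_form` the form is sum_k z^k/k! Lam (X^k); by StGM
its absolute value is at most sum_(k >= M-1) z^k/k! * choose k (M-1) W^(k-M+1)
= z^(M-1)/(M-1)! * sum_i (W z)^i/i! (k = i + M - 1; choose (i+M-1) (M-1) / (i+M-1)! = 1/(i! (M-1)!)). -/
def StRM : Prop := StGM → ∀ (m : ℕ) (x : Fin m → ℝ) (L : Fin m → ℕ) (W z : ℝ), Function.Injective x →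
  (∀ j, 0 < L j) → 0 ≤ W → 0 ≤ z → (∀ j, 0 ≤ x j ∧ x j ≤ W) →
  |∑ j, A x L z j * Real.exp (x j * z)| ≤
    z ^ (∑ i, L i - 1) / ((∑ i, L i - 1).factorial : ℝ) * Real.exp (W * z)

/-- MODULE RN (about 110 lines).  Nonvanishing with sharper denominators.  Proof: copy `exists_int` and `form_ne_zero` of
Helper16/GL.lean.  The only change: `intg_G` is used with V2 (each single difference divides V2) instead of V, so
(prod_(i != j) (x_j - x_i)^(L_i)) V2^k coeff_k (B_j) is an integer; the product divides V1^(p+1) (L_i <= p+1, and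
prod_(i != j) (x_j - x_i) divides V1) and V2^k divides V2^p for k <= L_j - 1 <= p.  Hence V1^(p+1) V2^p coeff_k(B_j) is an
integer; for j = js, k = 0 it divides V1^(p+1) V2^p, so it is prime to p; the rest of the proof is unchanged. -/
def StRN : Prop := ∀ (m : ℕ) (x : Fin m → ℤ), Function.Injective x → ∀ (z : ℕ) (b : Fin m → ℤ) (p : ℕ), p.Prime →
  ∀ V1 V2 : ℤ, (∀ j, ∏ i ∈ Finset.univ.erase j, (x j - x i) ∣ V1) → (∀ i j, i ≠ j → (x j - x i) ∣ V2) →
  ¬ (p : ℤ) ∣ V1 → ¬ (p : ℤ) ∣ V2 → ¬ p ∣ z → ∀ js : Fin m, ¬ (p : ℤ) ∣ b js →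
  1 ≤ |(p.factorial : ℝ) * (V1 : ℝ) ^ (p + 1) * (V2 : ℝ) ^ p *
      ∑ j, A (fun i => (x i : ℝ)) (fun j => if j = js then p + 1 else p) z j * b j|

/-- MODULE RC (about 80 lines).  Size of the coefficients at the nodes 0, 1, .., k.
Proof.  For an integer d != 0 one has |coeff_c (G d)| = |d|^(-c-1) <= |d|^(-1), so B_j is majorised by
prod_(i != j) |j - i|^(-L_i) * (mk 1)^(S), S = sum_(i != j) L_i (tools Maj).  By `coeff_mk_one_pow_le` its coefficients up to
c <= L_j - 1 are at most prod |j-i|^(-L_i) * 2^(S + L_j - 1) <= prod |j-i|^(-p) * 2^((k+1)p)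
(L_i >= p, |j - i| >= 1, sum of all L is (k+1)p + 1).  Here prod_(i != j) |j - i| = j! (k-j)!, so
k!^(p+1) prod |j-i|^(-p) = k! choose(k,j)^p <= k! 2^(kp).  Finally sum_a n^a/a! <= e^n. -/
def StRC : Prop := ∀ (k p n : ℕ), 1 ≤ p → ∀ js j : Fin (k + 1),
  |(k.factorial : ℝ) ^ (p + 1) * A (fun i : Fin (k + 1) => (((i : ℕ) : ℤ) : ℝ)) (fun j => if j = js then p + 1 else p) n j| ≤
    (k.factorial : ℝ) * 4 ^ ((k + 1) * p) * Real.exp n

/-- MODULE RA (about 90 lines).  The inequality for one n.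
Proof.  Nodes x_j = j (0 <= j <= k), z = n, a = round (exp n), b_j = a^j, js = 0 (b_0 = 1), V1 = k!, V2 = lcmUpto k
(`Nat.lcmUpto`: every 1 <= d <= k divides it, it divides k!), p prime > k and > n >= 1.  prod_(i != j) (j - i) divides k!
(`dvd_factorial_nodes` with W = k).  StRN gives 1 <= |p! k!^(p+1) V2^p (sum A_j e^(jn) + sum A_j (a^j - e^(jn)))|.
The first sum is bounded by StRM with W = k, sum L = (k+1)p + 1.  |a^j - e^(jn)| <= j max(a,e^n)^(j-1) |a - e^n|
<= k exp((n+1)k) dst n (a <= e^n + 1/2 <= e^(n+1)), and p! V2^p |k!^(p+1) A_j| is bounded by StRC. -/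
def StRA : Prop := StGM → StRM → StRN → StRC → ∀ n k p : ℕ, 1 ≤ n → 1 ≤ k → p.Prime → k < p → n < p →
  1 ≤ (p.factorial : ℝ) * (k.factorial : ℝ) ^ (p + 1) * (Nat.lcmUpto k : ℝ) ^ p *
        ((n : ℝ) ^ ((k + 1) * p) / (((k + 1) * p).factorial : ℝ) * Real.exp (k * n)) +
      (k + 1) * ((p.factorial : ℝ) * (Nat.lcmUpto k : ℝ) ^ p *
        ((k.factorial : ℝ) * 4 ^ ((k + 1) * p) * Real.exp n)) * (k * Real.exp ((n + 1) * k) * dst n)

/-- MODULE MB (about 120 lines).  Mahler's bound for all large n (classical, constant not explicit).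
Proof.  lcmUpto k <= e^(ck), c = log 4 + 4 (`Chebyshev.psi_eq_log_lcmUpto`, `Chebyshev.psi_le_const_mul_self`).  Let
A0 = e^(c+4), p prime in [A0 n, 2 (A0 n + 1)] (`exists_prime_window`), k = ceil (2 log n); n large, so k <= p, k >= log p + 1.
First term of StRA: p! <= p^p, k! <= k^k, ((k+1)p)! >= ((k+1)p/e)^((k+1)p) (`inv_factorial_le_exp`); its logarithm is at most
p log p + k(p+1) log k + ckp + (k+1)p (1 + log n - log (k+1) - log p) + kn
<= p log p + k log k + ckp + (k+1)p (1 - log (p/n)) + kn <= p log p + kp + ckp - (c+3)(k+1)p + kp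
<= p log p - kp <= -p <= -1 (log (p/n) >= c + 4, k log k <= kp, kn <= kp).  So the second term is at least 1/2, and its factor
of dst n has logarithm <= log(k+1) + p log p + ckp + k log k + (k+1)p log 4 + n + log k + (n+1)k <= C n log n - log 2.
Hence dst n >= exp(-C n log n) > 0 and lam n <= C n log n. -/
def StMB : Prop := StRA → StGM → StRM → StRN → StRC →
  ∃ C : ℝ, 0 < C ∧ ∃ n0 : ℕ, ∀ n : ℕ, n0 ≤ n → lam n ≤ C * n * Real.log n

/-! ## Part B: windows -/

/-- MODULE GE (about 200 lines).  Some node is not too well approximated.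
Proof.  This is `window_log` (Helper16/WindowE.lean, copy it) with general N, W, V.  Suppose lam (n i) > lev :=
30 t (1/N + v/(N s)) for all i; then dst (n i) < e^(-lev) (if dst = 0 then lam = log (1/0) = 0, impossible as lev >= 0).
R = t/s, u = log s.  Let p be a prime with 4t/(N s) <= p <= 2 (4t/(N s) + 1) (`exists_prime_window`); p >= 2t/s^2 > s^5 >= W
for large t, so p does not divide V.  gcd trick as in `window_log`: a_i = round (exp (n i)) = g b_i with gcd b = 1, so p does not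
divide some b_js.  `general_lemma` with x_i = n_i - t, z = 1, T = e^t/g, η = e^(-lev) and `product_bound`
(v, w = 6u, τ = t, ζ = 0, h = -lev) give 1 <= exp E1 + exp E2 with
E1 = p log p + (2p+1) v + log N + (Np+1) log 2 + Np 6u - Np log(Np) + Np + 2W + t,
E2 = p log p + (2p+1) v + log N + (Np+1) log 2 + 1 - lev.
Bounds for large t: 4R <= Np <= 8R + 2N <= 9R; (2p+1)v <= 3pv <= 3 p N s/100 <= 0.27 t; log N <= R; (Np+1) log 2 <= 7R;
2W <= 2 s^5 <= R; Np log(Np) - p log p >= (N-1) p log(Np) >= (Np/2) log (Np) >= 2R log R = 2R (s - u) = 2t - 2Ru.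
So E1 <= 0.27 t + 18 R + 56 R u - 2t + t <= -1.  For E2: p <= 9R/N <= t, p log p <= 9t/N; (2p+1) v <= 27 t v/(N s);
log N + (Np+1) log 2 + 1 <= 9R <= 18 t/N (N <= 2s); so E2 <= 27 t/N + 27 t v/(N s) - lev <= -3t/N <= -1.
exp(-1) + exp(-1) < 1, contradiction. -/
def StGE : Prop := ∃ X0 : ℝ, ∀ t : ℕ, X0 ≤ t → ∀ N W : ℕ, 2 ≤ N → (N : ℝ) ≤ 2 * Real.log t →
  (W : ℝ) ≤ (Real.log t) ^ 5 → ∀ n : Fin N → ℕ, StrictMono n → (∀ i, t ≤ n i ∧ n i ≤ t + W) →
  ∀ (V : ℤ) (v : ℝ), (∀ j, ∏ i ∈ Finset.univ.erase j, ((n j : ℤ) - (n i : ℤ)) ∣ V) →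
  (∀ p : ℕ, p.Prime → W < p → ¬ (p : ℤ) ∣ V) → |(V : ℝ)| ≤ Real.exp v → 0 ≤ v → v ≤ N * Real.log t / 100 →
  ∃ i, lam (n i) ≤ 30 * t * (1 / N + v / (N * Real.log t))

/-- MODULE FC (about 90 lines).  Dense sets.  Proof.  Suppose s has at least N elements; take N of them in increasing order
(`Finset.exists_subset_card_eq`, `orderEmbOfFin`, as in `window_log`).  StGE with base t' >= t, W = D N, V = (D N)!
(`dvd_factorial_nodes`; primes > W do not divide W!), v = W log W (`factorial_le_exp`).  Checks for large t, s = log t: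
W = DN <= s^(3/2) <= (log t')^5, log W <= 2u, N <= 2 log t', v <= 2 D N u <= N log t'/100 (D <= sqrt s).
Level: 30 t' (1/N + v/(N log t')) <= 60 t (1/N + 2 D u/s). -/
def StFC : Prop := StGE → ∃ X0 : ℝ, ∀ t : ℕ, X0 ≤ t → ∀ D N t' : ℕ, 1 ≤ D → (D : ℝ) ≤ Real.sqrt (Real.log t) →
  2 ≤ N → (N : ℝ) ≤ Real.log t → t ≤ t' → t' ≤ 2 * t → ∀ S : Finset ℕ,
  (∀ n ∈ S, t' ≤ n ∧ n ≤ t' + D * N ∧
    60 * t * (1 / N + 2 * D * Real.log (Real.log t) / Real.log t) < lam n) → S.card < N

/-- MODULE VW (about 90 lines).  Sparse sets.  Proof.  As FC but with V = `vdm` (Helper16/WindowA.lean: `dvd_vdm`, `abs_vdm_le`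
with Y = W, `not_dvd_vdm`), W = floor ((log t)^4), 2 npairs N = N (N-1) <= N^2 (write N = K + 1, `two_npairs`), so
v = 2 N^2 u (|vdm| <= W^(npairs) <= exp ((N^2/2) * 4u)).  v <= N s/100 because 250 N^2 u <= s and N >= 2.
Level: 30 t (1/N + 2 N u/s) <= 30 t (1/N + 1/(125 N)) <= 31 t/N. -/
def StVW : Prop := StGE → ∃ X0 : ℝ, ∀ t : ℕ, X0 ≤ t → ∀ N : ℕ, 2 ≤ N →
  250 * (N : ℝ) ^ 2 * Real.log (Real.log t) ≤ Real.log t → ∀ S : Finset ℕ,
  (∀ n ∈ S, t ≤ n ∧ (n : ℝ) ≤ t + (Real.log t) ^ 4 ∧ 31 * t / N < lam n) → S.card < N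

/-- MODULE CF (about 90 lines).  Counting in (t, t+H].  Proof.  s = log t, N = floor (s/D) (>= 2 since D <= sqrt s), N <= s,
N >= s/D - 1 >= s/(2D), so 1/N <= 2D/s <= 2Du/s and the level of FC is <= 240 t D u/s.  Cover (t, t+H] by the intervals
[t_i, t_i + D N], t_i = t + i D N, i = 0, .., floor (H/(DN)); t_i <= t + H <= 2t.  D N <= s <= H, so there are
floor (H/(DN)) + 1 <= 2H/(DN) intervals, each contains fewer than N elements of the set (FC): total <= 2H/D. -/
def StCF : Prop := StFC → StGE → ∃ X0 : ℝ, ∀ t : ℕ, X0 ≤ t → ∀ H D : ℕ, Real.log t ≤ H → H ≤ t → 1 ≤ D →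
  (D : ℝ) ≤ Real.sqrt (Real.log t) →
  ((((Finset.Ioc t (t + H)).filter fun n =>
    240 * t * D * Real.log (Real.log t) / Real.log t < lam n).card : ℕ) : ℝ) ≤ 2 * H / D

/-- MODULE SL (about 90 lines).  Pure summation.  Proof.  At most one n in J has f n > b/2 (k = 1); let m be it (or anything
outside if there is none, e.g. m = 0 also works: if no such n exists every n satisfies f n <= b/2, but then erase m only removes
one term, so bound the sum over J.erase m for any m).  For every n with f n <= b/2: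
f n <= a + sum_(i < I) a 2^i [f n > a 2^i] + sum_(k = 2..K) (2b/2^k) [f n > b/2^k].
(If f n <= a: clear.  If a 2^i < f n <= a 2^(i+1) for some i < I: the first two terms already give a 2^(i+1).  If f n > a 2^I then
f n > b/2^K, so b/2^k < f n <= b/2^(k-1) for some 2 <= k <= K and the k-th term is b/2^(k-1).)  All terms are nonnegative.
Sum over n in J.erase m and use the two counting hypotheses: a |J| + sum_(i<I) 2 a |J| + sum_(k=2..K) 2b. -/
def StSL : Prop := ∀ (J : Finset ℕ) (f : ℕ → ℝ) (a b : ℝ) (I K : ℕ), 0 < a → 0 < b → 1 ≤ K →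
  (∀ i < I, (((J.filter fun n => a * 2 ^ i < f n).card : ℕ) : ℝ) ≤ 2 * J.card / 2 ^ i) →
  (∀ k, 1 ≤ k → k ≤ K → (J.filter fun n => b / 2 ^ k < f n).card < 2 ^ k) →
  b / 2 ^ K ≤ a * 2 ^ I →
  ∃ m, ∑ n ∈ J.erase m, f n ≤ a * J.card + 2 * a * J.card * I + 2 * b * K

/-- MODULE A1 (about 150 lines).  One window.  Proof.  J = Ioc t (t+H), |J| = H, f = lam, a = 240 t u/s, b = 31 t.
K = the largest K with 250 * 4^K * u <= s (K >= 1 for large t); K <= u because 4^K <= s; maximality: 2^K > (1/2) sqrt (s/(250u)).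
I = the least I with b/2^K <= a 2^I; if I >= 1 then 2^(I-1) < (31/240)(s/u)/2^K <= 4.1 sqrt (s/u) <= sqrt s for large t
(u >= 17), hence D = 2^i <= sqrt s for i < I (StCF applies, the level is a 2^i) and I <= u for large t.
StVW with N = 2^k (k <= K): 250 N^2 u <= s, elements of J lie in [t, t + (log t)^4], level 31 t/2^k = b/2^k.
StSL gives the sum <= a H (1 + 2 I) + 2 b K <= 240 t (u/s) H * 3u + 62 t u <= 800 t H u^2/s (H >= s, u >= 1). -/
def StA1 : Prop := StCF → StVW → StSL → StFC → StGE → ∃ C X0 : ℝ, 0 < C ∧ ∀ t : ℕ, X0 ≤ t → ∀ H : ℕ,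
  Real.log t ≤ H → (H : ℝ) ≤ (Real.log t) ^ 4 → H ≤ t →
  ∃ m, ∑ n ∈ (Finset.Ioc t (t + H)).erase m, lam n ≤ C * H * t * (Real.log (Real.log t)) ^ 2 / Real.log t

/-- The final statement. -/
def Final : Prop := ∃ C : ℝ, ∃ X0 : ℕ, ∀ X H : ℕ, X0 ≤ X → H ≤ X →
  (Real.log X ≤ H → ∃ m : ℕ, ∑ n ∈ (Finset.Ioc X (X + H)).erase m,
      Real.log (1 / |Real.exp n - round (Real.exp n)|) ≤
        C * H * X * (Real.log (Real.log X)) ^ 2 / Real.log X) ∧
  ((Real.log X) ^ 2 ≤ H → ∑ n ∈ Finset.Ioc X (X + H),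
      Real.log (1 / |Real.exp n - round (Real.exp n)|) ≤
        C * H * X * (Real.log (Real.log X)) ^ 2 / Real.log X)

/-- MODULE FI (about 150 lines).  Assembly.  The hypotheses are the conclusions of A1 and MB.
Proof.  lam n >= 0 (|x - round x| <= 1/2, and log (1/0) = 0).  Part (2), s = log X, h0 = ceil (s^2) <= H.  Base points
t_i = X + i h0, i = 0..q, q = floor (H/h0), cover (X, X+H] by the blocks (t_i, t_i + h0], t_i <= X + H <= 2X.
For each block: A1 at t_i with H = h0 (log t_i <= s + 1 <= h0 <= (log t_i)^4) gives C h0 t_i u_i^2/s_i <= 8 C h0 X u^2/s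
(log (log t_i) <= 2u), and the excluded m (if it lies in the block) has lam m <= C' m log m <= C' 3X * 2s <= 6 C' X h0/s
<= 6 C' X h0 u^2/s.  (q+1) h0 <= H + h0 <= 2H.  Sum over the blocks; the terms outside (X, X+H] are >= 0.
Part (1): if H <= (log X)^4 this is A1, otherwise it follows from part (2) (drop one nonnegative term). -/
def StFI : Prop := (∃ C X0 : ℝ, 0 < C ∧ ∀ t : ℕ, X0 ≤ t → ∀ H : ℕ,
  Real.log t ≤ H → (H : ℝ) ≤ (Real.log t) ^ 4 → H ≤ t →
  ∃ m, ∑ n ∈ (Finset.Ioc t (t + H)).erase m, lam n ≤ C * H * t * (Real.log (Real.log t)) ^ 2 / Real.log t) →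
  (∃ C : ℝ, 0 < C ∧ ∃ n0 : ℕ, ∀ n : ℕ, n0 ≤ n → lam n ≤ C * n * Real.log n) → Final

end Pool.Agent.Helper65.MT
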